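import Pool.Agent.MP_7ac2f5_co.Mg.Packing

set_option autoImplicit false

open scoped ENNReal

namespace Pool.Agent.Results.MP_7ac2f5_co.Answer

open Pool.Agent.MP_7ac2f5_co

/-- First part: no (the complete graph on five vertices, `d = 2`, `q = 1` or `q = ∞`).
Second part: yes, even for all but finitely many real `q > 1`, with one placement. -/
theorem result :
    (HamiltonDecomposable 2 (⊤ : SimpleGraph (Fin 5)) ∧
      ∀ p : Fin 5 → Fin 2 → ℝ, ¬ RedundantlyRigid ∞ 2 (⊤ : SimpleGraph (Fin 5)) p ∧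
        ¬ RedundantlyRigid 1 2 (⊤ : SimpleGraph (Fin 5)) p) ∧
    ∀ (d : ℕ), 2 ≤ d → ∀ (n : ℕ) (G : SimpleGraph (Fin n)), HamiltonDecomposable d G →
      ∃ (p : Fin n → Fin d → ℝ) (F : Finset ℝ), ∀ q : ℝ, 1 < q → q ∉ F →
        RedundantlyRigid (ENNReal.ofReal q) d G p := by
  refine ⟨⟨k5_decomposable, fun p => ⟨k5_top p, k5_one p⟩⟩, fun d hd n G hG => ?_⟩
  obtain ⟨p, hp⟩ := exists_generic (Fin n) d
  have hfin := finite_bad_redundant (by omega) hG hp
  refine ⟨p, hfin.toFinset, fun q hq hF => ?_⟩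
  by_contra hn
  exact hF (hfin.mem_toFinset.2 ⟨hq, hn⟩)

end Pool.Agent.Results.MP_7ac2f5_co.Answer
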